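import Pool.Agent.Q136.KM.Sign

/-!
# MP_fd35e1_ag: the sign conjecture in the middle degree of one parity
-/

set_option autoImplicit false

open CategoryTheory AlgebraicGeometry

universe u v

namespace Pool.Agent.Results.MP_fd35e1_ag.MiddleDegree

open Pool.Agent.H914 VarClass Obj WeilCohomology Pool.Agent.TH720.LB Pool.Agent.H447
  Pool.Agent.Q136.KM

/-- Let `W` be a Weil cohomology theory (for the problem: crystalline cohomology), and `C` a curve
with `H^1(C) ≠ 0` and a divisor of degree one. Let `q` be one of the properties of being even and of being odd.

1. For each variety `X` the following are equivalent: the even Kunneth projector of `X` is the class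
of an algebraic cycle with rational coefficients; and the following statements for all the varieties
`Y = X × C^m`, `m ≤ dim X + 1`, whose dimension `N` has the property `q`: each class `y` of the
middle degree `N` is separated from each class `y'` of a degree `j < N` with `N - j` odd by a
combination of algebraic correspondences, which may depend on `y` and `y'`; the algebraic cycles on
`Y × Y` detect the classes `y × w + y' × w'`, `y`, `w` of degree `N` with `tr (y w) ≠ 0`, `y'` and `w'`
of degrees `j < N` and `2 N - j`, `N - j` odd.

2. The even projectors of all varieties are algebraic if and only if one (each) of the two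
statements holds for all varieties `Y` whose dimension `N` has the property `q`. -/
theorem result {k : Type u} [Field k] {𝒱 : VarClass k} {ops : CycleOps 𝒱}
    (W : WeilCohomology.{u, v} ops) (C : 𝒱.Obj) (c : C.Cycles) (hC : CurveLike W C c)
    (q : ℕ → Prop) (hq : q = Even ∨ q = Odd) :
    (∀ X : 𝒱.Obj, OneVarietySign W C q X) ∧ AllVarietiesSign W q :=
  ⟨fun X => signStd_tfae hC.to X hq, signStd_tfae_all W hC.to hq⟩

end Pool.Agent.Results.MP_fd35e1_ag.MiddleDegree
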