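import Pool.Agent.TH133.PW.Ev

/-!
# The sign conjecture, two cohomology classes at a time

Let `W` be a Weil cohomology theory with coefficient field `K` (for the problem: crystalline
cohomology tensored with the fraction field of the Witt vectors) and `X` a variety of dimension `n`.
The following are equivalent:

* `C⁺(X)`: an algebraic cycle with rational coefficients induces the projector onto the even
  cohomology (`SignStd`);
* this projector is a `K`-combination of algebraic correspondences;
* for each pair of single homogeneous classes, `y` of even degree and `y'` of odd degree, some
  `K`-combination `φ` of algebraic correspondences of degree zero, which may depend on `y` and `y'`,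
  satisfies `φ(y) = y` and `φ(y') = 0` (`SeparatesParity`);
* if `y, w` are classes of even degrees and `y', w'` classes of odd degrees, both pairs of total degree
  `2 n`, and `y × w + y' × w'` is orthogonal to all algebraic cycles of codimension `n` on `X × X`,
  then `tr (y w) = 0` (`DetectsParity`);
* every subspace of `H(X)` stable under the algebraic correspondences of degree zero is stable under
  the projector onto the even cohomology (`StableParity`).
-/

open CategoryTheory AlgebraicGeometry

set_option autoImplicit false

universe u v

namespace Pool.Agent.Results.MP_fd35e1_ag.PairsOfOppositeParity

open Pool.Agent.H914 Pool.Agent.TH133.PW Pool.Agent.H447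

/-- The sign conjecture for `X` holds if and only if each even class can be separated from each odd
class by algebraic correspondences, one pair of classes at a time. -/
theorem result {k : Type u} [Field k] {𝒱 : VarClass k} {ops : CycleOps 𝒱}
    (W : WeilCohomology.{u, v} ops) (X : 𝒱.Obj) :
    [SignStd W X, EvenProjInSpan (W.gr X) (cycleOperators W X X.dim),
      SeparatesParity (W.gr X) (cycleOperators W X X.dim), DetectsParity W X,
      StableParity (W.gr X) (cycleOperators W X X.dim)].TFAE :=
  sign_tfae W X

end Pool.Agent.Results.MP_fd35e1_ag.PairsOfOppositeParity
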