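import Pool.Agent.Q282.UK.Ret

/-!
# MP_fd35e1_ag: the sign conjecture for crystalline cohomology and trilinear forms
-/

set_option autoImplicit false

open CategoryTheory Limits AlgebraicGeometry Pool.Agent.Y116.UV Pool.Agent.Q282.UM
  Pool.Agent.Q282.UK

namespace Pool.Agent.Results.MP_fd35e1_ag.TrilinearForms

universe v u

/-- The crystalline cohomology on the category `C` of Chow motives over a perfect field of positive
characteristic: `H M` is the total cohomology of the motive `M`, and `even M` is the projection of
`H M` onto its even part. -/
structure Crystalline (C : Type u) [Category.{v} C] (K : Type) [Field K] where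
  H : C ⥤ ModuleCat.{0} K
  even : H ⟶ H

/-- The conjecture `C⁺(M)`: the projection of the cohomology of `M` onto its even part is given by an
endomorphism of `M` (a cycle with rational coefficients). -/
def SignC {C : Type u} [Category.{v} C] {K : Type} [Field K] (R : Crystalline C K) (M : C) : Prop :=
  ∃ f : M ⟶ M, R.H.map f = R.even.app M

/-- **The sign conjecture and trilinear forms.** Let `C` be the category of Chow motives over the
perfect field `k` of characteristic `p > 0` with rational coefficients, with the crystalline
cohomology, and let `W(X)` be the weight complex of the scheme `X` of finite type over `k`.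

* For all `N`, the conjecture `C⁺` is true for all smooth projective `X` over `k` of dimension at most
  `N` (and for the twists of their motives) if and only if for all cubic hypersurfaces
  `Y : T(x, y, z) = 1`, `T` a trilinear form over `k` with a block of at most `N + 2` variables, the
  twists of `W(Y)` are direct summands, in the homotopy category, of complexes all of whose terms
  satisfy the conjecture `C⁺`.
* The conjecture `C⁺` is true for all smooth projective `X` over `k` if and only if this is true for
  all trilinear forms over `k`. -/
theorem result {C : Type u} [Category.{v} C] [Preadditive C] [HasZeroObject C]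
    [HasBinaryBiproducts C] [HasFiniteBiproducts C] {K : Type} [Field K] (R : Crystalline C K)
    (hR : R.H.Additive) (k : Type) [Field k] [PerfectField k] (D : Weights k C)
    (hD : IsWeights D) :
    (∀ N : ℕ, ForVarieties D (SignC R) N ↔ ForForms D (TermsIn (SignC R)) N) ∧
    (ForAllVarieties D (SignC R) ↔ ForAllForms D (TermsIn (SignC R))) := by
  have h : IsExtension (SignC R) (TermsIn (SignC R)) := ext_terms (thick_map R.H hR R.even)
  exact ⟨forms_dim hD h, forms_all hD h⟩

end Pool.Agent.Results.MP_fd35e1_ag.TrilinearForms
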